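import Mathlib.Combinatorics.SimpleGraph.Clique
import Mathlib.Combinatorics.Hall.Basic
import Mathlib.Data.Fintype.Prod
import Mathlib.Tactic.Linarith
import Mathlib.Tactic.Ring

/-!
# Jets of very well covered graphs

For every finite simple graph `G` and every `s ≥ 0` the graph of `s`-jets of `G` is very well
covered if and only if `G` is.

Proof.  A graph without isolated vertices is very well covered if and only if it has a perfect
matching, given by an involution `m`, such that for each vertex `v` every neighbour `x ≠ m v` of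
`v` is adjacent to every neighbour `y ≠ v` of `m v` (Favaron).  If `m` is such a matching of `G`
then `v_i ↦ (m v)_(s - i)` is such a matching of the graph of `s`-jets.
-/

set_option autoImplicit false

namespace Pool.Agent.K3h81.JW.JetsIff

open Finset

/-- All maximal (by inclusion) independent sets of `G` have the same size. -/
def WellCovered {V : Type*} (G : SimpleGraph V) : Prop :=
  ∀ S T : Finset V, Maximal (fun A : Finset V => G.IsIndepSet A) S →
    Maximal (fun A : Finset V => G.IsIndepSet A) T → S.card = T.card

/-- `G` has no isolated vertices, is well covered, and `|V| = 2 α(G)`. -/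
def VeryWellCovered {V : Type*} [Fintype V] (G : SimpleGraph V) : Prop :=
  (∀ v, ∃ w, G.Adj v w) ∧ WellCovered G ∧ Fintype.card V = 2 * G.indepNum

/-- The graph of `s`-jets of `G`: its vertices are the `v_i` with `v ∈ V` and `0 ≤ i ≤ s`, and
`v_i` and `w_j` are adjacent if and only if `v` and `w` are adjacent and `i + j ≤ s`. -/
def jets {V : Type*} (s : ℕ) (G : SimpleGraph V) : SimpleGraph (V × Fin (s + 1)) where
  Adj a b := G.Adj a.1 b.1 ∧ (a.2 : ℕ) + b.2 ≤ s
  symm := ⟨fun a b h => ⟨h.1.symm, by have := h.2; omega⟩⟩
  loopless := ⟨fun a h => G.loopless.irrefl _ h.1⟩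

/-- `m` is a perfect matching of `G` with Favaron's property. -/
def Fav {V : Type*} (G : SimpleGraph V) (m : V → V) : Prop :=
  (∀ v, m (m v) = v) ∧ (∀ v, G.Adj v (m v)) ∧
    ∀ v x y, G.Adj v x → G.Adj (m v) y → x ≠ m v → y ≠ v → G.Adj x y

section
variable {V : Type*} [Fintype V] {G : SimpleGraph V}

/-- every independent set is contained in a maximal one -/
lemma exists_max {A : Finset V} (hA : G.IsIndepSet A) :
    ∃ B : Finset V, A ⊆ B ∧ Maximal (fun A : Finset V => G.IsIndepSet A) B := by
  classical
  have h := (Set.toFinite {B : Finset V | G.IsIndepSet B}).exists_le_maximal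
    (a := A) hA
  obtain ⟨B, hAB, hB⟩ := h
  exact ⟨B, hAB, hB⟩

omit [Fintype V] in
lemma max_of_set {S : Finset V} (h : Maximal G.IsIndepSet (S : Set V)) :
    Maximal (fun A : Finset V => G.IsIndepSet A) S := by
  refine ⟨h.prop, fun B hB hSB => ?_⟩
  have := h.le_of_ge (y := (B : Set V)) hB (by exact_mod_cast hSB)
  exact_mod_cast this

/-- in a graph with a matching as above each maximal independent set has half of the vertices -/
lemma card_of_fav {m : V → V} (h : Fav G m) {B : Finset V}
    (hB : Maximal (fun A : Finset V => G.IsIndepSet A) B) : 2 * B.card = Fintype.card V := by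
  classical
  obtain ⟨h1, h2, h3⟩ := h
  have hinj : Function.Injective m := fun a b hab => by rw [← h1 a, ← h1 b, hab]
  -- exactly one of `v`, `m v` lies in `B`
  have hdis : ∀ v ∈ B, m v ∉ B := fun v hv hmv => hB.prop hv hmv (h2 v).ne (h2 v)
  have hcov : ∀ v, v ∉ B → m v ∈ B := by
    intro v hv
    by_contra hmv
    -- both `v` and `m v` have a neighbour in `B`
    have key : ∀ u, u ∉ B → ∃ x ∈ B, G.Adj u x := by
      intro u hu
      by_contra hcon
      push Not at hcon
      have hins : G.IsIndepSet ((insert u B : Finset V) : Set V) := by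
        rw [coe_insert]
        intro a ha b hb hab
        rcases Set.mem_insert_iff.1 ha with rfl | ha' <;> rcases Set.mem_insert_iff.1 hb with rfl | hb'
        · exact absurd rfl hab
        · exact hcon b hb'
        · exact fun hadj => hcon a ha' hadj.symm
        · exact hB.prop ha' hb' hab
      have := hB.le_of_ge hins (subset_insert u B)
      exact hu (this (mem_insert_self u B))
    obtain ⟨x, hx, hvx⟩ := key v hv
    obtain ⟨y, hy, hmy⟩ := key (m v) hmv
    have hadj := h3 v x y hvx hmy (by rintro rfl; exact hmv hx) (by rintro rfl; exact hv hy)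
    exact hB.prop hx hy hadj.ne hadj
  have himg : B.image m = univ \ B := by
    ext v
    simp only [mem_image, mem_sdiff, mem_univ, true_and]
    constructor
    · rintro ⟨u, hu, rfl⟩
      exact hdis u hu
    · intro hv
      exact ⟨m v, hcov v hv, h1 v⟩
  have hc : (B.image m).card = B.card := card_image_of_injective _ hinj
  rw [himg, card_sdiff_of_subset (subset_univ B), card_univ] at hc
  have := card_le_univ B
  omega

lemma vwc_of_fav {m : V → V} (h : Fav G m) : VeryWellCovered G := by
  refine ⟨fun v => ⟨m v, h.2.1 v⟩, ?_, ?_⟩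
  · intro S T hS hT
    have h1 := card_of_fav h hS
    have h2 := card_of_fav h hT
    omega
  · obtain ⟨s, hs⟩ := G.maximumIndepSet_exists
    rw [← G.maximumIndepSet_card_eq_indepNum s hs]
    exact (card_of_fav h (max_of_set hs.isMaximalIndepSet)).symm

/-- Favaron's theorem: the perfect matching exists. -/
lemma fav_of_vwc (h : VeryWellCovered G) : ∃ m, Fav G m := by
  classical
  obtain ⟨h0, hw, hc⟩ := h
  -- a maximal independent set
  obtain ⟨S, hS⟩ := G.maximumIndepSet_exists
  have hSmax : Maximal (fun A : Finset V => G.IsIndepSet A) S :=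
    max_of_set hS.isMaximalIndepSet
  have hScard : S.card = G.indepNum := G.maximumIndepSet_card_eq_indepNum S hS
  have hall : ∀ B : Finset V, Maximal (fun A : Finset V => G.IsIndepSet A) B →
      B.card = G.indepNum := fun B hB => (hw B S hB hSmax).trans hScard
  let N : V → Finset V := fun v => univ.filter fun w => G.Adj v w
  have hN : ∀ v w, w ∈ N v ↔ G.Adj v w := fun v w => by simp [N]
  -- Hall's condition
  have hHall : ∀ n : ℕ, ∀ A : Finset V, A.card = n → A ⊆ S → A.card ≤ (A.biUnion N).card := by
    intro n
    induction n using Nat.strong_induction_on with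
    | _ n ih =>
      intro A hAn hAS
      rcases A.eq_empty_or_nonempty with rfl | ⟨a, ha⟩
      · simp
      -- maximal independent subset of the neighbourhood of `A`
      obtain ⟨b, hab⟩ := h0 a
      obtain ⟨T, hbT, hT⟩ : ∃ T : Finset V, {b} ⊆ T ∧
          Maximal (fun B : Finset V => B ⊆ A.biUnion N ∧ G.IsIndepSet B) T := by
        have := (Set.toFinite {B : Finset V | B ⊆ A.biUnion N ∧ G.IsIndepSet B}).exists_le_maximal
          (a := {b}) ⟨by
            rw [singleton_subset_iff, mem_biUnion]
            exact ⟨a, ha, (hN a b).2 hab⟩, by simp⟩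
        obtain ⟨T, h1, h2⟩ := this
        exact ⟨T, h1, h2⟩
      have hTN : T ⊆ A.biUnion N := hT.prop.1
      have hTi : G.IsIndepSet T := hT.prop.2
      have hbT' : b ∈ T := hbT (mem_singleton_self b)
      -- the part of `A` not adjacent to `T`
      let A' := A.filter fun x => ∀ t ∈ T, ¬ G.Adj x t
      have hA'A : A' ⊆ A := filter_subset _ _
      have haA' : a ∉ A' := by
        intro h
        exact (mem_filter.1 h).2 b hbT' hab
      have hA'lt : A'.card < n := by
        rw [← hAn]
        exact card_lt_card ⟨hA'A, fun h => haA' (h ha)⟩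
      have ih' := ih A'.card hA'lt A' rfl (hA'A.trans hAS)
      -- `T ∪ A'` is independent
      have hTA' : G.IsIndepSet ((T ∪ A' : Finset V) : Set V) := by
        intro x hx y hy hxy
        rw [mem_coe, mem_union] at hx hy
        rcases hx with hx | hx <;> rcases hy with hy | hy
        · exact hTi hx hy hxy
        · exact fun hadj => (mem_filter.1 hy).2 x hx hadj.symm
        · exact fun hadj => (mem_filter.1 hx).2 y hy hadj
        · exact hS.isIndepSet (hAS (hA'A hx)) (hAS (hA'A hy)) hxy
      obtain ⟨B, hTB, hB⟩ := exists_max hTA'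
      -- `B` meets the neighbourhood of `A` in `T`
      have hBN : B ∩ A.biUnion N = T := by
        apply Subset.antisymm
        · have hle : T ≤ B ∩ A.biUnion N := by
            intro t ht
            exact mem_inter.2 ⟨hTB (mem_union_left _ ht), hTN ht⟩
          exact hT.le_of_ge ⟨inter_subset_right, fun x hx y hy hxy =>
            hB.prop (mem_inter.1 hx).1 (mem_inter.1 hy).1 hxy⟩ hle
        · intro t ht
          exact mem_inter.2 ⟨hTB (mem_union_left _ ht), hTN ht⟩
      have hBA : B ∩ A ⊆ A' := by
        intro x hx
        rw [mem_inter] at hx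
        refine mem_filter.2 ⟨hx.2, fun t ht hadj => ?_⟩
        exact hB.prop hx.1 (hTB (mem_union_left _ ht)) hadj.ne hadj
      -- the rest of `B` together with `A` is independent
      let R := (B \ A) \ A.biUnion N
      have hRi : G.IsIndepSet ((R ∪ A : Finset V) : Set V) := by
        have hRA : ∀ x ∈ R, ∀ y ∈ A, ¬ G.Adj y x := by
          intro x hx y hy hadj
          exact (mem_sdiff.1 hx).2 (mem_biUnion.2 ⟨y, hy, (hN y x).2 hadj⟩)
        intro x hx y hy hxy
        rw [mem_coe, mem_union] at hx hy
        rcases hx with hx | hx <;> rcases hy with hy | hy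
        · exact hB.prop (mem_sdiff.1 (mem_sdiff.1 hx).1).1 (mem_sdiff.1 (mem_sdiff.1 hy).1).1 hxy
        · exact fun hadj => hRA x hx y hy hadj.symm
        · exact hRA y hy x hx
        · exact hS.isIndepSet (hAS hx) (hAS hy) hxy
      have hR1 : (R ∪ A).card ≤ G.indepNum := hRi.card_le_indepNum
      have hRA : Disjoint R A := by
        rw [disjoint_left]
        intro x hx hxA
        exact (mem_sdiff.1 (mem_sdiff.1 hx).1).2 hxA
      rw [card_union_of_disjoint hRA] at hR1
      have hB1 := hall B hB
      have hBsub : B ⊆ T ∪ A' ∪ R := by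
        intro x hx
        by_cases hxA : x ∈ A
        · exact mem_union_left _ (mem_union_right _ (hBA (mem_inter.2 ⟨hx, hxA⟩)))
        · by_cases hxN : x ∈ A.biUnion N
          · refine mem_union_left _ (mem_union_left _ ?_)
            rw [← hBN]
            exact mem_inter.2 ⟨hx, hxN⟩
          · exact mem_union_right _ (mem_sdiff.2 ⟨mem_sdiff.2 ⟨hx, hxA⟩, hxN⟩)
      have hB2 : B.card ≤ T.card + A'.card + R.card :=
        (card_le_card hBsub).trans ((card_union_le _ _).trans
          (Nat.add_le_add_right (card_union_le _ _) _))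
      -- the neighbourhood of `A'` is disjoint from `T`
      have hdis : Disjoint (A'.biUnion N) T := by
        rw [disjoint_left]
        intro x hx hxT
        obtain ⟨y, hy, hxy⟩ := mem_biUnion.1 hx
        exact (mem_filter.1 hy).2 x hxT ((hN y x).1 hxy)
      have hun : (A'.biUnion N ∪ T).card ≤ (A.biUnion N).card := by
        apply card_le_card
        intro x hx
        rcases mem_union.1 hx with hx | hx
        · exact biUnion_subset_biUnion_of_subset_left _ hA'A hx
        · exact hTN hx
      rw [card_union_of_disjoint hdis] at hun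
      omega
  -- the matching on `S`
  have hHall' : ∀ A : Finset S, A.card ≤ (A.biUnion fun v : S => N v).card := by
    intro A
    have h1 := hHall _ (A.map (Function.Embedding.subtype _)) rfl (by
      intro x hx
      obtain ⟨y, _, rfl⟩ := mem_map.1 hx
      exact y.2)
    rw [card_map] at h1
    refine h1.trans (card_le_card ?_)
    intro x hx
    obtain ⟨y, hy, hxy⟩ := mem_biUnion.1 hx
    obtain ⟨z, hz, rfl⟩ := mem_map.1 hy
    exact mem_biUnion.2 ⟨z, hz, hxy⟩
  obtain ⟨f, hf, hfN⟩ := (Finset.all_card_le_biUnion_card_iff_exists_injective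
    (fun v : S => N v)).1 hHall'
  have hfadj : ∀ v : S, G.Adj v (f v) := fun v => (hN _ _).1 (hfN v)
  have hfS : ∀ v : S, f v ∉ S := fun v hv => hS.isIndepSet v.2 hv (hfadj v).ne (hfadj v)
  have hcompl : (univ \ S).card = S.card := by
    rw [card_sdiff_of_subset (subset_univ S), card_univ, hc, hScard]
    omega
  have himg : (univ : Finset S).image f = univ \ S := by
    apply eq_of_subset_of_card_le
    · intro x hx
      obtain ⟨v, _, rfl⟩ := mem_image.1 hx
      exact mem_sdiff.2 ⟨mem_univ _, hfS v⟩
    · rw [card_image_of_injective _ hf, hcompl]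
      simp
  have hsurj : ∀ x, x ∉ S → ∃ v : S, f v = x := by
    intro x hx
    have : x ∈ (univ : Finset S).image f := by
      rw [himg]; exact mem_sdiff.2 ⟨mem_univ _, hx⟩
    obtain ⟨v, _, hv⟩ := mem_image.1 this
    exact ⟨v, hv⟩
  choose g hg using hsurj
  let m : V → V := fun v => if hv : v ∈ S then f ⟨v, hv⟩ else (g v hv : V)
  have hm1 : ∀ v (hv : v ∈ S), m v = f ⟨v, hv⟩ := fun v hv => by simp [m, hv]
  have hm2 : ∀ v (hv : v ∉ S), m v = g v hv := fun v hv => by simp [m, hv]
  have hmm : ∀ v, m (m v) = v := by
    intro v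
    by_cases hv : v ∈ S
    · rw [hm1 v hv, hm2 _ (hfS ⟨v, hv⟩)]
      have := hf (hg (f ⟨v, hv⟩) (hfS ⟨v, hv⟩))
      rw [this]
    · rw [hm2 v hv, hm1 _ (g v hv).2]
      exact hg v hv
  have hmadj : ∀ v, G.Adj v (m v) := by
    intro v
    by_cases hv : v ∈ S
    · rw [hm1 v hv]; exact hfadj ⟨v, hv⟩
    · rw [hm2 v hv]
      have := hfadj (g v hv)
      rw [hg v hv] at this
      exact this.symm
  refine ⟨m, hmm, hmadj, ?_⟩
  intro v x y hvx hmy hxm hyv
  by_contra hxy
  -- an independent set containing `x` and `y`
  have hind : G.IsIndepSet (({x, y} : Finset V) : Set V) := by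
    intro a ha b hb hab
    simp only [coe_insert, coe_singleton, Set.mem_insert_iff, Set.mem_singleton_iff] at ha hb
    rcases ha with rfl | rfl <;> rcases hb with rfl | rfl
    · exact absurd rfl hab
    · exact hxy
    · exact fun h => hxy h.symm
    · exact absurd rfl hab
  obtain ⟨B, hsub, hB⟩ := exists_max hind
  have hxB : x ∈ B := hsub (by simp)
  have hyB : y ∈ B := hsub (by simp)
  have hvB : v ∉ B := fun h => hB.prop h hxB hvx.ne hvx
  have hmvB : m v ∉ B := fun h => hB.prop h hyB hmy.ne hmy
  have hinj : Function.Injective m := fun a b hab => by rw [← hmm a, ← hmm b, hab]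
  have h1 : B.image m ⊆ (univ \ B).erase v := by
    intro z hz
    obtain ⟨w, hw', rfl⟩ := mem_image.1 hz
    refine mem_erase.2 ⟨?_, mem_sdiff.2 ⟨mem_univ _, fun h => hB.prop hw' h (hmadj w).ne (hmadj w)⟩⟩
    rintro rfl
    rw [hmm w] at hmvB
    exact hmvB hw'
  have h2 := card_le_card h1
  rw [card_image_of_injective _ hinj, card_erase_of_mem (mem_sdiff.2 ⟨mem_univ _, hvB⟩),
    card_sdiff_of_subset (subset_univ B), card_univ, hc, hall B hB] at h2
  have h3 : 0 < B.card := card_pos.2 ⟨x, hxB⟩
  rw [hall B hB] at h3
  omega

end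

/-- For every finite simple graph `G` and every `s ≥ 0`, the graph of `s`-jets of `G` is very well
covered if and only if `G` is very well covered. -/
theorem result {V : Type*} [Fintype V] (G : SimpleGraph V) (s : ℕ) :
    VeryWellCovered (jets s G) ↔ VeryWellCovered G := by
  classical
  constructor
  · rintro ⟨h0, hw, hc⟩
    have hmax : ∀ S : Finset V, Maximal (fun A : Finset V => G.IsIndepSet A) S →
        Maximal (fun A : Finset (V × Fin (s + 1)) => (jets s G).IsIndepSet A)
          (S ×ˢ (univ : Finset (Fin (s + 1)))) := by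
      intro S hS
      refine ⟨?_, ?_⟩
      · intro a ha b hb _ hadj
        have h1 := (mem_product.1 ha).1
        have h2 := (mem_product.1 hb).1
        exact hS.prop h1 h2 hadj.1.ne hadj.1
      · intro B hB hSB b hb
        have hins : G.IsIndepSet ((insert b.1 S : Finset V) : Set V) := by
          have key : ∀ c ∈ S, ¬ G.Adj b.1 c := by
            intro c hc' hadj
            have hcB : (c, (0 : Fin (s + 1))) ∈ B :=
              hSB (mem_product.2 ⟨hc', mem_univ _⟩)
            have hadj' : (jets s G).Adj b (c, 0) := ⟨hadj, by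
              have := b.2.isLt
              simp only [Fin.val_zero]
              omega⟩
            exact hB hb hcB hadj'.ne hadj'
          rw [coe_insert]
          intro x hx y hy hxy
          rcases Set.mem_insert_iff.1 hx with rfl | hx' <;>
            rcases Set.mem_insert_iff.1 hy with rfl | hy'
          · exact absurd rfl hxy
          · exact key y hy'
          · exact fun h => key x hx' h.symm
          · exact hS.prop hx' hy' hxy
        have := hS.le_of_ge hins (subset_insert _ _)
        exact mem_product.2 ⟨this (mem_insert_self _ _), mem_univ _⟩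
    have hcard : ∀ S : Finset V, Maximal (fun A : Finset V => G.IsIndepSet A) S →
        2 * S.card = Fintype.card V := by
      intro S hS
      obtain ⟨T, hT⟩ := (jets s G).maximumIndepSet_exists
      have h1 := hw _ _ (hmax S hS) (max_of_set hT.isMaximalIndepSet)
      rw [(jets s G).maximumIndepSet_card_eq_indepNum T hT] at h1
      rw [← h1, card_product, card_univ, Fintype.card_prod, Fintype.card_fin] at hc
      have hpos : 0 < s + 1 := Nat.succ_pos s
      have : Fintype.card V * (s + 1) = (2 * S.card) * (s + 1) := by rw [hc]; ring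
      exact (Nat.eq_of_mul_eq_mul_right hpos this).symm
    refine ⟨?_, ?_, ?_⟩
    · intro v
      obtain ⟨w, hvw⟩ := h0 (v, 0)
      exact ⟨w.1, hvw.1⟩
    · intro S T hS hT
      have h1 := hcard S hS
      have h2 := hcard T hT
      omega
    · obtain ⟨S, hS⟩ := G.maximumIndepSet_exists
      rw [← G.maximumIndepSet_card_eq_indepNum S hS]
      exact (hcard S (max_of_set hS.isMaximalIndepSet)).symm
  · intro h
    obtain ⟨m, h1, h2, h3⟩ := fav_of_vwc h
    refine vwc_of_fav (m := fun a => (m a.1, Fin.rev a.2)) ⟨?_, ?_, ?_⟩
    · rintro ⟨v, i⟩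
      simp [h1]
    · rintro ⟨v, i⟩
      refine ⟨h2 v, ?_⟩
      have := i.isLt
      simp only [Fin.val_rev]
      omega
    · rintro ⟨v, i⟩ ⟨x, j⟩ ⟨y, k⟩ ⟨hvx, hij⟩ ⟨hmy, hik⟩ hx hy
      simp only [Fin.val_rev] at hvx hij hmy hik
      have hi := i.isLt
      refine ⟨?_, ?_⟩
      · change G.Adj x y
        by_cases e1 : x = m v
        · rw [e1]; exact hmy
        · by_cases e2 : y = v
          · rw [e2]; exact hvx.symm
          · exact h3 v x y hvx hmy e1 e2
      · change (j : ℕ) + k ≤ s
        omega

end Pool.Agent.K3h81.JW.JetsIff
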